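import Pool.Agent.S09824

/-!
# A graph which is not complete and whose chromatic number drops under contracting one or two edges
-/

set_option autoImplicit false

namespace Pool.Agent.Results.MP_836894_co.Contractions

/-- The graph obtained from `G` by contracting the edges of the set `s`: its vertices are the connected
components of the graph with the edge set `s`, and two different ones are adjacent if they are joined
by an edge of `G` (loops are deleted and parallel edges are merged). -/
def contract {V : Type} (G : SimpleGraph V) (s : Set (Sym2 V)) :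
    SimpleGraph (SimpleGraph.fromEdgeSet s).ConnectedComponent where
  Adj c d := c ≠ d ∧ ∃ u v, G.Adj u v ∧
    (SimpleGraph.fromEdgeSet s).connectedComponentMk u = c ∧
    (SimpleGraph.fromEdgeSet s).connectedComponentMk v = d
  symm := ⟨fun _ _ ⟨h, u, v, h1, h2, h3⟩ => ⟨h.symm, v, u, h1.symm, h3, h2⟩⟩
  loopless := ⟨fun _ h => h.1 rfl⟩

theorem contract_lt {n : ℕ} {G : SimpleGraph (Fin n)} {s : Set (Sym2 (Fin n))} {a b c d : Fin n}
    (hs : ∀ e ∈ s, e = s(a, b) ∨ e = s(c, d)) (hab : s(a, b) ∈ s) (hcd : s(c, d) ∈ s)
    (h : ∃ k : ℕ, ¬ G.Colorable k ∧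
          ∃ col : Fin n → Fin k,
            col a = col b ∧ col c = col d ∧
            (∀ u v : Fin n, G.Adj u v →
              ¬ Relation.ReflTransGen
                  (fun x y : Fin n =>
                    (x = a ∧ y = b) ∨ (x = b ∧ y = a) ∨ (x = c ∧ y = d) ∨ (x = d ∧ y = c))
                  u v →
              col u ≠ col v)) :
    (contract G s).chromaticNumber < G.chromaticNumber := by
  obtain ⟨k, hk, col, h1, h2, h3⟩ := h
  have hadj : ∀ u v, (SimpleGraph.fromEdgeSet s).Adj u v →
      (u = a ∧ v = b) ∨ (u = b ∧ v = a) ∨ (u = c ∧ v = d) ∨ (u = d ∧ v = c) := by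
    intro u v huv
    rw [SimpleGraph.fromEdgeSet_adj] at huv
    rcases hs _ huv.1 with h4 | h4
    · rw [Sym2.eq_iff] at h4
      tauto
    · rw [Sym2.eq_iff] at h4
      tauto
  have hcol : ∀ u v, (SimpleGraph.fromEdgeSet s).Adj u v → col u = col v := by
    intro u v huv
    rcases hadj u v huv with ⟨rfl, rfl⟩ | ⟨rfl, rfl⟩ | ⟨rfl, rfl⟩ | ⟨rfl, rfl⟩
    · exact h1
    · exact h1.symm
    · exact h2
    · exact h2.symm
  have hreach : ∀ u v, (SimpleGraph.fromEdgeSet s).Reachable u v → col u = col v := by
    rintro u v ⟨p⟩
    induction p with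
    | nil => rfl
    | cons h4 _ ih => exact (hcol _ _ h4).trans ih
  have hrt : ∀ u v, Relation.ReflTransGen
      (fun x y : Fin n =>
        (x = a ∧ y = b) ∨ (x = b ∧ y = a) ∨ (x = c ∧ y = d) ∨ (x = d ∧ y = c)) u v →
      (SimpleGraph.fromEdgeSet s).Reachable u v := by
    intro u v huv
    have hst : ∀ x y : Fin n, s(x, y) ∈ s → (SimpleGraph.fromEdgeSet s).Reachable x y := by
      intro x y hxy
      by_cases he : x = y
      · rw [he]
      · exact SimpleGraph.Adj.reachable ((SimpleGraph.fromEdgeSet_adj s).mpr ⟨hxy, he⟩)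
    induction huv with
    | refl => exact SimpleGraph.Reachable.refl _
    | tail _ h4 ih =>
      refine ih.trans ?_
      rcases h4 with ⟨rfl, rfl⟩ | ⟨rfl, rfl⟩ | ⟨rfl, rfl⟩ | ⟨rfl, rfl⟩
      · exact hst _ _ hab
      · exact (hst _ _ hab).symm
      · exact hst _ _ hcd
      · exact (hst _ _ hcd).symm
  have hcolor : (contract G s).Colorable k := by
    refine ⟨SimpleGraph.Coloring.mk (fun x => x.lift (fun v => col v) fun u v p _ =>
      hreach u v ⟨p⟩) ?_⟩
    intro x y hxy
    obtain ⟨hne, u, v, h4, rfl, rfl⟩ := hxy
    show col u ≠ col v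
    refine h3 u v h4 fun h5 => hne ?_
    exact SimpleGraph.ConnectedComponent.sound (hrt u v h5)
  refine lt_of_le_of_lt hcolor.chromaticNumber_le ?_
  rw [← not_le]
  intro h4
  exact hk (SimpleGraph.chromaticNumber_le_iff_colorable.mp h4)

/-- There is a finite connected graph, not complete, such that contracting any edge and contracting any
two distinct edges lowers the chromatic number. -/
theorem result : ∃ (n : ℕ) (G : SimpleGraph (Fin n)), G.Connected ∧ G ≠ ⊤ ∧
    (∀ e ∈ G.edgeSet, (contract G {e}).chromaticNumber < G.chromaticNumber) ∧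
    (∀ e ∈ G.edgeSet, ∀ f ∈ G.edgeSet, e ≠ f →
      (contract G {e, f}).chromaticNumber < G.chromaticNumber) := by
  have h := Pool.Agent.S09824.result
  push Not at h
  obtain ⟨n, G, hc, hG, hne⟩ := h
  refine ⟨n, G, hc, hne, ?_, ?_⟩
  · intro e
    induction e using Sym2.ind with
    | _ a b =>
      intro he
      rw [SimpleGraph.mem_edgeSet] at he
      refine contract_lt (a := a) (b := b) (c := a) (d := b) ?_ ?_ ?_ ?_
      · intro e he
        exact Or.inl he
      · exact rfl
      · exact rfl
      · exact hG a b a b he he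
  · intro e
    induction e using Sym2.ind with
    | _ a b =>
      intro he f
      induction f using Sym2.ind with
      | _ c d =>
        intro hf _
        rw [SimpleGraph.mem_edgeSet] at he hf
        refine contract_lt (a := a) (b := b) (c := c) (d := d) ?_ ?_ ?_ ?_
        · intro e he
          exact he
        · exact Or.inl rfl
        · exact Or.inr rfl
        · exact hG a b c d he hf

end Pool.Agent.Results.MP_836894_co.Contractions
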